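import Pool.Agent.Helper64_BEQ.Fun
import Pool.Agent.Helper22_BEH.All
import Pool.Agent.Helper64_BEG.All
import Pool.Agent.Helper19_BEO.WEO
import Pool.Agent.Helper1_BEQ.QFO
import Pool.Agent.Helper34_BEQ.EIP
import Pool.Agent.Helper58_BEQ.KYF
import Pool.Agent.Helper75_BEQ.NEA
import Pool.Agent.Helper26_BEQ.DEG
import Pool.Agent.Helper8_BEQ.OSP
import Pool.Agent.Helper46_BEQ.UNM
import Pool.Agent.Helper65_BEQ.TEX
import Pool.Agent.Helper49_BEQ.MOT
import Pool.Agent.Helper49_BEQ.DNS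
import Pool.Agent.Helper3_BEQ.GEN

/-!
# Squad BEQ (MP_be01ff_an): all rows together.
-/

set_option autoImplicit false

namespace Pool.Agent.BEQ.All

open Pool.Agent.BEQ

theorem qfo : QfoStmt := H1.qfo
theorem eip : EipStmt := H34.eip qfo
theorem kyf : KyfStmt := H58.kyf qfo
theorem nea : NeaStmt := H75.nea Pool.Agent.BEG.All.unq
theorem syd : Pool.Agent.BEH.SydStmt :=
  Pool.Agent.BEH.H28.syd Pool.Agent.BEH.H50.leb Pool.Agent.BEH.H52.qua
    (Pool.Agent.BEH.H62.hod Pool.Agent.BEH.H4.the Pool.Agent.BEH.H25.hu2A Pool.Agent.BEH.H42.vod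
      Pool.Agent.BEH.H25.hudA Pool.Agent.BEH.All.hfd)
theorem smd : Pool.Agent.BEH.SmdStmt :=
  Pool.Agent.BEH.H95.smd Pool.Agent.BEH.H79.red Pool.Agent.BEH.H32.abv Pool.Agent.BEH.H43.mne
    (Pool.Agent.BEH.H58.pod Pool.Agent.BEH.H50.leb Pool.Agent.BEH.All.mvd)
theorem deg : DegStmt :=
  H26.deg Pool.Agent.BEH.H25.mmxA Pool.Agent.BEH.H79.red syd Pool.Agent.BEH.H40.geo
    Pool.Agent.BEH.H25.uppA Pool.Agent.BEH.H25.lowA
theorem osp : OspStmt := H8.osp eip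
theorem unm : UnmStmt :=
  H46.unm Pool.Agent.BEH.H44.egk smd Pool.Agent.BEH.H25.stdA Pool.Agent.BEH.H65.pow
theorem mot : MotStmt := H49.mot Pool.Agent.BEO.H19.weo Pool.Agent.BEH.H10.ext
theorem tex : TexStmt := H65.tex Pool.Agent.BEH.H10.ext
theorem dns : DnsStmt := H49.dns tex mot nea deg kyf
theorem gen : GenStmt := H3.gen tex nea dns osp unm

end Pool.Agent.BEQ.All
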