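import Pool.Agent.BEQ.Stmts
import Pool.Agent.Helper22_BEH.Sca
import Pool.Agent.Helper22_BEN.All
import Pool.Agent.Helper70_BE01.Conv

/-!
# Squad BEQ (MP_be01ff_an): generic domains, formulated with functions
-/

set_option autoImplicit false

namespace Pool.Agent.BEQ.Fun

open Pool.Agent Pool.Agent.BEQ
open Set Filter Topology MeasureTheory
open scoped InnerProductSpace ENNReal

noncomputable section

theorem huni {d : ℕ} (hd : 2 ≤ d) : Pool.Agent.BEH.Uni d := by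
  intro Ω p a B β hD hp ha hβ
  obtain ⟨M, hM⟩ := Pool.Agent.BEN.All.uni d Ω p B β hd hD hp hβ
  exact ⟨M, fun Ω' h1 h2 l φ h3 h4 h5 h6 h7 h8 h9 h10 =>
    hM Ω' h1 h2 a l φ ha h3 h4 h5 h6 h7 h8 h9 h10⟩

/-- Open and dense: in the set of the connected open subsets of `D` with the resolvent distance. -/
theorem generic (gen : GenStmt) (d : ℕ) (hd : 2 ≤ d) (D Ω : Set (BE01F.E d)) (P : ℕ) (δ ε : ℝ)
    (hD : IsOpen D) (hb : Bornology.IsBounded D) (hΩ : IsOpen Ω) (hc : IsConnected Ω)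
    (hsub : Ω ⊆ D) (hδ : 0 < δ) (hε : 0 < ε) :
    ∃ (J : ℕ) (x : Fin J → BE01F.E d) (r : Fin J → ℝ),
      (∀ j, 0 < r j ∧ Metric.closedBall (x j) (r j) ⊆ Ω) ∧
      (∀ i j, i ≠ j →
        Disjoint (Metric.closedBall (x i) (r i)) (Metric.closedBall (x j) (r j))) ∧
      ∑ j, r j < δ ∧ IsConnected (Ω \ ⋃ j, Metric.closedBall (x j) (r j)) ∧
      Near D Ω (Ω \ ⋃ j, Metric.closedBall (x j) (r j)) ε ∧
      ∃ η : ℝ, 0 < η ∧ ∀ Ω' : Set (BE01F.E d), IsOpen Ω' → IsConnected Ω' → Ω' ⊆ D →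
        Near D (Ω \ ⋃ j, Metric.closedBall (x j) (r j)) Ω' η →
        ∀ (a : ℝ) (p : ℕ), 0 < a → 1 ≤ p → p ≤ P →
          BE01F.SharpRate Ω' a ((2 * p : ℕ) : ℝ) := by
  obtain ⟨J, x, r, h1, h2, h3, h4, h5, η, hη, h6⟩ := gen d hd (huni hd) D Ω P δ ε
    ⟨hD, hb, hc.nonempty.mono hsub⟩ hΩ hc hsub hδ hε
  refine ⟨J, x, r, h1, h2, h3, h4, h5, η, hη, fun Ω' h7 h8 h9 h10 a p ha hp hP => ?_⟩
  have hp' : (0 : ℝ) < ((2 * p : ℕ) : ℝ) := by
    have : 0 < 2 * p := by omega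
    exact_mod_cast this
  exact Helper70BE01Conv.sharp_of
    (Pool.Agent.BEH.H22.rt_scale one_pos ha hp' (h6 Ω' h7 h8 h9 h10 p hp hP))

end

end Pool.Agent.BEQ.Fun
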