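import Pool.Agent.Helper64_BEQ.All

/-!
# Squad BEQ (MP_be01ff_an): the theorem on generic domains, unconditional
-/

set_option autoImplicit false

namespace Pool.Agent.BEQ.FunA

open Pool.Agent Pool.Agent.BEQ
open Set Filter Topology MeasureTheory
open scoped InnerProductSpace ENNReal

/-- Open and dense: in the set of the connected open subsets of `D` with the resolvent distance. -/
theorem generic (d : ℕ) (hd : 2 ≤ d) (D Ω : Set (BE01F.E d)) (P : ℕ) (δ ε : ℝ)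
    (hD : IsOpen D) (hb : Bornology.IsBounded D) (hΩ : IsOpen Ω) (hc : IsConnected Ω)
    (hsub : Ω ⊆ D) (hδ : 0 < δ) (hε : 0 < ε) :
    ∃ (J : ℕ) (x : Fin J → BE01F.E d) (r : Fin J → ℝ),
      (∀ j, 0 < r j ∧ Metric.closedBall (x j) (r j) ⊆ Ω) ∧
      (∀ i j, i ≠ j →
        Disjoint (Metric.closedBall (x i) (r i)) (Metric.closedBall (x j) (r j))) ∧
      ∑ j, r j < δ ∧ IsConnected (Ω \ ⋃ j, Metric.closedBall (x j) (r j)) ∧
      Near D Ω (Ω \ ⋃ j, Metric.closedBall (x j) (r j)) ε ∧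
      ∃ η : ℝ, 0 < η ∧ ∀ Ω' : Set (BE01F.E d), IsOpen Ω' → IsConnected Ω' → Ω' ⊆ D →
        Near D (Ω \ ⋃ j, Metric.closedBall (x j) (r j)) Ω' η →
        ∀ (a : ℝ) (p : ℕ), 0 < a → 1 ≤ p → p ≤ P →
          BE01F.SharpRate Ω' a ((2 * p : ℕ) : ℝ) :=
  Fun.generic All.gen d hd D Ω P δ ε hD hb hΩ hc hsub hδ hε

end Pool.Agent.BEQ.FunA
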